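import Mathlib

namespace Pool.Agent.Results.MP_7acd66_nt.OddTerm

/-- perfect deficiency: run through the divisors in increasing order, subtracting each one that
does not exceed the current remainder -/
def pd (n : ℕ) : ℕ :=
  ((Nat.divisors n).sort (· ≤ ·)).foldl (fun r d => if d ≤ r then r - d else r) n

def L : List ℕ :=
  [1, 3, 5, 7, 11, 15, 21, 33, 35, 55, 77, 105, 165, 231, 385, 547, 1155, 1291, 1641, 2735, 3829,
   3873, 6017, 6455, 8205, 9037, 11487, 14201, 18051, 19145, 19365, 27111, 30085, 42119, 42603,
   45185, 57435, 71005, 90255, 99407, 126357, 135555, 210595, 213015, 298221, 497035, 631785,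
   706177, 1491105, 2118531, 3530885, 4943239, 7767947, 10592655, 14829717, 23303841, 24716195,
   38839735, 54375629, 74148585, 116519205, 163126887, 271878145, 815634435]

theorem result : ∃ n : ℕ, Odd n ∧ 1155 < n ∧ pd n ≤ 10 := by
  refine ⟨3 * 5 * 7 * 11 * 547 * 1291, by decide +kernel, by norm_num, ?_⟩
  unfold pd
  simp only [Nat.divisors_mul]
  rw [Nat.Prime.divisors (by norm_num : Nat.Prime 3), Nat.Prime.divisors (by norm_num : Nat.Prime 5),
    Nat.Prime.divisors (by norm_num : Nat.Prime 7), Nat.Prime.divisors (by norm_num : Nat.Prime 11),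
    Nat.Prime.divisors (by norm_num : Nat.Prime 547),
    Nat.Prime.divisors (by norm_num : Nat.Prime 1291)]
  have h : ∀ s : Finset ℕ, s = L.toFinset →
      (s.sort (· ≤ ·)).foldl (fun r d => if d ≤ r then r - d else r)
        (3 * 5 * 7 * 11 * 547 * 1291) ≤ 10 := by
    rintro s rfl
    rw [(List.toFinset_sort (· ≤ ·) (by decide +kernel : L.Nodup)).mpr (by decide +kernel)]
    decide +kernel
  exact h _ (by decide +kernel)

end Pool.Agent.Results.MP_7acd66_nt.OddTerm
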